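import Pool.Agent.H81SSE.Final

/-!
# MP_993212_an: Williams' problem for matrices with a large orthogonal rank-one part

For all `ν`, `β` there is `c₀` such that for square matrices of size at most `ν` over `ℕ` of the
form `x bᵀ + N` with `N x = 0`, `bᵀ N = 0`, all entries of `x bᵀ` at least `c₀` and all entries of
`N` at most `β` in absolute value, strong shift equivalence over `ℕ`, shift equivalence over `ℕ`
and shift equivalence over `ℤ` coincide; they hold exactly if the Perron eigenvalues `bᵀ x` agree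
and the small parts `N` are shift equivalent over `ℤ`.
-/

set_option autoImplicit false

namespace Pool.Agent.Results.MP_993212_an.BulkWilliams

open Matrix

/-- Elementary equivalence of square matrices over `ℕ`: `A = R S`, `B = S R` for rectangular
matrices `R`, `S` over `ℕ`. -/
def Elem (X Y : Σ n : ℕ, Matrix (Fin n) (Fin n) ℕ) : Prop :=
  ∃ (R : Matrix (Fin X.1) (Fin Y.1) ℕ) (S : Matrix (Fin Y.1) (Fin X.1) ℕ),
    X.2 = R * S ∧ Y.2 = S * R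

/-- Strong shift equivalence over `ℕ` (a finite chain of elementary equivalences). -/
def SSE {n m : ℕ} (A : Matrix (Fin n) (Fin n) ℕ) (B : Matrix (Fin m) (Fin m) ℕ) : Prop :=
  Relation.TransGen Elem ⟨n, A⟩ ⟨m, B⟩

/-- Shift equivalence of square matrices over a semiring `k` (used for `k = ℕ` and `k = ℤ`). -/
def SE (k : Type) [Semiring k] {n m : ℕ} (A : Matrix (Fin n) (Fin n) k)
    (B : Matrix (Fin m) (Fin m) k) : Prop :=
  ∃ l, 1 ≤ l ∧ ∃ (R : Matrix (Fin n) (Fin m) k) (S : Matrix (Fin m) (Fin n) k),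
    A ^ l = R * S ∧ B ^ l = S * R ∧ A * R = R * B ∧ S * A = B * S

/-- The matrix `A` viewed over `ℤ`. -/
def toZ {n : ℕ} (A : Matrix (Fin n) (Fin n) ℕ) : Matrix (Fin n) (Fin n) ℤ :=
  A.map (Nat.cast : ℕ → ℤ)

/-- `A = x bᵀ + N` with positive integer vectors `x`, `b` such that all entries `x i * b j` are at
least `c₀`, `N x = 0`, `bᵀ N = 0` and `bᵀ x = t`. -/
def Split (c₀ : ℕ) {n : ℕ} (A : Matrix (Fin n) (Fin n) ℕ) (N : Matrix (Fin n) (Fin n) ℤ)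
    (t : ℤ) : Prop :=
  ∃ x b : Fin n → ℤ, (∀ i, 0 < x i) ∧ (∀ j, 0 < b j) ∧ (∀ i j, (c₀ : ℤ) ≤ x i * b j) ∧
    N *ᵥ x = 0 ∧ b ᵥ* N = 0 ∧ b ⬝ᵥ x = t ∧ ∀ i j, (A i j : ℤ) = x i * b j + N i j

/-- The three relations agree and are decided by `t` and `N`. -/
def Classified {n m : ℕ} (A : Matrix (Fin n) (Fin n) ℕ) (B : Matrix (Fin m) (Fin m) ℕ)
    (N : Matrix (Fin n) (Fin n) ℤ) (N' : Matrix (Fin m) (Fin m) ℤ) (t t' : ℤ) : Prop :=
  (SSE A B ↔ SE ℕ A B) ∧ (SE ℕ A B ↔ SE ℤ (toZ A) (toZ B)) ∧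
    (SSE A B ↔ t = t' ∧ SE ℤ N N')

lemma Split.mono {c c₀ : ℕ} (hc : c₀ ≤ c) {n : ℕ} {A : Matrix (Fin n) (Fin n) ℕ}
    {N : Matrix (Fin n) (Fin n) ℤ} {t : ℤ} (h : Split c A N t) : Split c₀ A N t := by
  obtain ⟨x, b, h1, h2, h3, h4⟩ := h
  exact ⟨x, b, h1, h2, fun i j => le_trans (by exact_mod_cast hc) (h3 i j), h4⟩

/-- The column with entries `x i`. -/
def col {n : ℕ} (x : Fin n → ℤ) : Matrix (Fin n) Unit ℤ := Matrix.of fun i _ => x i

/-- The row with entries `y j`. -/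
def row {n : ℕ} (y : Fin n → ℤ) : Matrix Unit (Fin n) ℤ := Matrix.of fun _ j => y j

lemma mul_col {n : ℕ} {N : Matrix (Fin n) (Fin n) ℤ} {x : Fin n → ℤ} (h : N *ᵥ x = 0) :
    N * col x = 0 := by
  ext i j
  exact congrFun h i

lemma row_mul {n : ℕ} {N : Matrix (Fin n) (Fin n) ℤ} {y : Fin n → ℤ} (h : y ᵥ* N = 0) :
    row y * N = 0 := by
  ext i j
  exact congrFun h j

lemma row_mul_col {n : ℕ} (x y : Fin n → ℤ) :
    row y * col x = Matrix.of fun _ _ => y ⬝ᵥ x := by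
  ext i j
  rfl

lemma toZ_eq {n : ℕ} {A : Matrix (Fin n) (Fin n) ℕ} {N : Matrix (Fin n) (Fin n) ℤ}
    {x b : Fin n → ℤ} (h : ∀ i j, (A i j : ℤ) = x i * b j + N i j) :
    toZ A = col x * row b + N := by
  ext i j
  have h1 : (col x * row b) i j = x i * b j := by
    rw [Matrix.mul_apply]
    simp [col, row]
  rw [Matrix.add_apply, h1]
  exact h i j

/-- The case of fixed small parts. -/
lemma fixed {n m : ℕ} (hn : 0 < n) (hm : 0 < m) (N : Matrix (Fin n) (Fin n) ℤ)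
    (N' : Matrix (Fin m) (Fin m) ℤ) : ∃ c₀ : ℕ, ∀ (A : Matrix (Fin n) (Fin n) ℕ)
      (B : Matrix (Fin m) (Fin m) ℕ) (t t' : ℤ), Split c₀ A N t → Split c₀ B N' t' →
      Classified A B N N' t t' := by
  have : Nonempty (Fin n) := ⟨⟨0, hn⟩⟩
  have : Nonempty (Fin m) := ⟨⟨0, hm⟩⟩
  have hN0 : 0 ≤ ∑ i, ∑ j, |N i j| :=
    Finset.sum_nonneg fun i _ => Finset.sum_nonneg fun j _ => abs_nonneg _
  have hN0' : 0 ≤ ∑ i, ∑ j, |N' i j| :=
    Finset.sum_nonneg fun i _ => Finset.sum_nonneg fun j _ => abs_nonneg _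
  have hfw : ∃ c₁ : ℤ, SE ℤ N N' → ∀ (x : Matrix (Fin n) Unit ℤ) (b : Matrix Unit (Fin n) ℤ)
      (x' : Matrix (Fin m) Unit ℤ) (b' : Matrix Unit (Fin m) ℤ),
      N * x = 0 → b * N = 0 → N' * x' = 0 → b' * N' = 0 →
      (∀ i j, 1 ≤ x i j) → (∀ i j, 1 ≤ b i j) → (∀ i j, 1 ≤ x' i j) → (∀ i j, 1 ≤ b' i j) →
      (∀ i j, c₁ ≤ x i () * b () j) → (∀ i j, c₁ ≤ x' i () * b' () j) →
      (b * x) () () = (b' * x') () () →
      Pool.Agent.H81SSE.QQ (x * b + N) (x' * b' + N') := by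
    by_cases h : SE ℤ N N'
    · obtain ⟨l, _, R, S, e1, e2, e3, e4⟩ := h
      obtain ⟨c₁, hc₁⟩ := Pool.Agent.H81SSE.forward_all N N'
        (Pool.Agent.H81SSE.gc_of_se N N' l R S e1 e2 e3 e4)
      exact ⟨c₁, fun _ => hc₁⟩
    · exact ⟨0, fun h' => absurd h' h⟩
  obtain ⟨c₁, hc₁⟩ := hfw
  refine ⟨(max c₁ ((∑ i, ∑ j, |N i j|) + (∑ i, ∑ j, |N' i j|) + 1)).toNat,
    fun A B t t' hA hB => ?_⟩
  obtain ⟨x, b, hx, hb, hc, h1, h2, ht, hAe⟩ := hA
  obtain ⟨x', b', hx', hb', hc', h3, h4, ht', hBe⟩ := hB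
  set c₂ := max c₁ ((∑ i, ∑ j, |N i j|) + (∑ i, ∑ j, |N' i j|) + 1) with hc₂
  have hle : c₂ ≤ (c₂.toNat : ℤ) := Int.self_le_toNat c₂
  have hcc : ∀ i j, c₂ ≤ x i * b j := fun i j => hle.trans (hc i j)
  have hcc' : ∀ i j, c₂ ≤ x' i * b' j := fun i j => hle.trans (hc' i j)
  have l1 : c₁ ≤ c₂ := le_max_left _ _
  have l2 : (∑ i, ∑ j, |N i j|) + (∑ i, ∑ j, |N' i j|) + 1 ≤ c₂ := le_max_right _ _
  have qA := toZ_eq hAe
  have qB := toZ_eq hBe
  have pt : c₂ ≤ t := by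
    have h5 := Pool.Agent.H81SSE.pairing_ge c₂ (col x) (row b) (fun i _ => hx i)
      (fun _ j => hb j) (fun i j => hcc i j)
    rw [← ht]
    exact h5
  have pt' : c₂ ≤ t' := by
    have h5 := Pool.Agent.H81SSE.pairing_ge c₂ (col x') (row b') (fun i _ => hx' i)
      (fun _ j => hb' j) (fun i j => hcc' i j)
    rw [← ht']
    exact h5
  -- the implications
  have i1 : (t = t' ∧ SE ℤ N N') → SSE A B := by
    intro h
    have h5 := hc₁ h.2 (col x) (row b) (col x') (row b') (mul_col h1) (row_mul h2) (mul_col h3)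
      (row_mul h4) (fun i _ => hx i) (fun _ j => hb j) (fun i _ => hx' i) (fun _ j => hb' j)
      (fun i j => l1.trans (hcc i j)) (fun i j => l1.trans (hcc' i j))
      (by
        change b ⬝ᵥ x = b' ⬝ᵥ x'
        rw [ht, ht', h.1])
    rw [← qA, ← qB] at h5
    exact Pool.Agent.H81SSE.transGen_of_QQ h5
  have i2 : SSE A B → SE ℕ A B :=
    fun h => Pool.Agent.H81SSE.se_of_transGen (fun _ _ hXY => hXY) h
  have i3 : SE ℕ A B → SE ℤ (toZ A) (toZ B) := fun h => Pool.Agent.H81SSE.seZ_of_seN h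
  have i4 : SE ℤ (toZ A) (toZ B) → (t = t' ∧ SE ℤ N N') := by
    rintro ⟨l, hl, R, S, e1, e2, e3, e4⟩
    have fA : toZ A = N + (1 : ℤ) • (col x * row b) := by rw [qA, one_smul, add_comm]
    have fB : toZ B = N' + (1 : ℤ) • (col x' * row b') := by rw [qB, one_smul, add_comm]
    rw [fA, fB] at e3 e4
    rw [fA] at e1
    rw [fB] at e2
    have m1 : row b * col x = Matrix.of fun _ _ => t := by rw [row_mul_col, ht]
    have m2 : row b' * col x' = Matrix.of fun _ _ => t' := by rw [row_mul_col, ht']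
    have n1 : Pool.Agent.H81SSE.NoEig N (1 * t') :=
      Pool.Agent.H81SSE.noEig_large N _ (by linarith)
    have n2 : Pool.Agent.H81SSE.NoEig N' (1 * t) :=
      Pool.Agent.H81SSE.noEig_large N' _ (by linarith)
    have s1 := Pool.Agent.H81SSE.same_trace N (col x) (row b) N' (col x') (row b') 1 1 t t'
      one_pos (by linarith) (row_mul h2) (row_mul h4) (fun _ j => hb j) m1 m2 n2 l R S e1 e3
    obtain ⟨R', S', f1, f2, f3, f4⟩ := Pool.Agent.H81SSE.descend N (col x) (row b) N' (col x')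
      (row b') 1 1 t t' (row_mul h2) (row_mul h4) m1 m2 n1 n2 l R S e1 e2 e3 e4
    exact ⟨by linarith, l + 2, by omega, R', S', f1, f2, f3, f4⟩
  exact ⟨⟨i2, fun h => i1 (i4 (i3 h))⟩, ⟨i3, fun h => i2 (i1 (i4 h))⟩,
    ⟨fun h => i4 (i3 (i2 h)), i1⟩⟩

theorem result (ν β : ℕ) : ∃ c₀ : ℕ, ∀ (n m : ℕ) (A : Matrix (Fin n) (Fin n) ℕ)
    (B : Matrix (Fin m) (Fin m) ℕ) (N : Matrix (Fin n) (Fin n) ℤ)
    (N' : Matrix (Fin m) (Fin m) ℤ) (t t' : ℤ),
    0 < n → n ≤ ν → 0 < m → m ≤ ν → (∀ i j, |N i j| ≤ β) → (∀ i j, |N' i j| ≤ β) →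
    Split c₀ A N t → Split c₀ B N' t' → Classified A B N N' t t' := by
  classical
  let I : Type := Σ n : Fin (ν + 1), (Fin n → Fin n → Set.Icc (-(β : ℤ)) β)
  have hfix : ∀ p : I × I, ∃ c₀ : ℕ, 0 < (p.1.1 : ℕ) → 0 < (p.2.1 : ℕ) →
      ∀ (A : Matrix (Fin p.1.1) (Fin p.1.1) ℕ) (B : Matrix (Fin p.2.1) (Fin p.2.1) ℕ)
      (t t' : ℤ), Split c₀ A (Matrix.of fun i j => (p.1.2 i j : ℤ)) t →
      Split c₀ B (Matrix.of fun i j => (p.2.2 i j : ℤ)) t' →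
      Classified A B (Matrix.of fun i j => (p.1.2 i j : ℤ))
        (Matrix.of fun i j => (p.2.2 i j : ℤ)) t t' := by
    intro p
    by_cases h : 0 < (p.1.1 : ℕ) ∧ 0 < (p.2.1 : ℕ)
    · obtain ⟨c₀, hc₀⟩ := fixed h.1 h.2 (Matrix.of fun i j => (p.1.2 i j : ℤ))
        (Matrix.of fun i j => (p.2.2 i j : ℤ))
      exact ⟨c₀, fun _ _ => hc₀⟩
    · exact ⟨0, fun h1 h2 => absurd ⟨h1, h2⟩ h⟩
  choose c hc using hfix
  obtain ⟨M, hM⟩ := (Set.finite_range c).bddAbove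
  refine ⟨M, fun n m A B N N' t t' hn hnν hm hmν hN hN' hA hB => ?_⟩
  let p : I × I := (⟨⟨n, by omega⟩, fun i j => ⟨N i j, abs_le.1 (hN i j)⟩⟩,
    ⟨⟨m, by omega⟩, fun i j => ⟨N' i j, abs_le.1 (hN' i j)⟩⟩)
  have hcp : c p ≤ M := hM ⟨p, rfl⟩
  exact hc p hn hm A B t t' (hA.mono hcp) (hB.mono hcp)

end Pool.Agent.Results.MP_993212_an.BulkWilliams
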