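import Pool.Agent.H81SSE.Path.G

/-!
# MP_993212_an: a path theorem over the nonnegative integers

Let `A₀` be a real `n × n` matrix, `G` an invertible integer matrix and `γ` a path of real matrices
from the identity to `G` such that all matrices `γ(t)⁻¹ A₀ γ(t)` have positive entries. Then all
sufficiently large integer matrices `A` in an open cone around `A₀` have the property that `A` and
`G⁻¹ A G` are strong shift equivalent over `ℕ`.
-/

set_option autoImplicit false

namespace Pool.Agent.Results.MP_993212_an.ConePaths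

open Matrix

/-- Elementary equivalence of square matrices over `ℕ`: `A = R S`, `B = S R` for rectangular
matrices `R`, `S` over `ℕ`. -/
def Elem (X Y : Σ n : ℕ, Matrix (Fin n) (Fin n) ℕ) : Prop :=
  ∃ (R : Matrix (Fin X.1) (Fin Y.1) ℕ) (S : Matrix (Fin Y.1) (Fin X.1) ℕ),
    X.2 = R * S ∧ Y.2 = S * R

/-- Strong shift equivalence over `ℕ` (a finite chain of elementary equivalences). -/
def SSE {n m : ℕ} (A : Matrix (Fin n) (Fin n) ℕ) (B : Matrix (Fin m) (Fin m) ℕ) : Prop :=
  Relation.TransGen Elem ⟨n, A⟩ ⟨m, B⟩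

/-- The matrix `A` viewed over `ℤ`. -/
def toZ {n : ℕ} (A : Matrix (Fin n) (Fin n) ℕ) : Matrix (Fin n) (Fin n) ℤ :=
  A.map (Nat.cast : ℕ → ℤ)

/-- An integer matrix viewed over `ℝ`. -/
def toR {n : ℕ} (A : Matrix (Fin n) (Fin n) ℤ) : Matrix (Fin n) (Fin n) ℝ :=
  A.map (Int.cast : ℤ → ℝ)

theorem result :
    ∀ (n : ℕ) (A₀ : Matrix (Fin n) (Fin n) ℝ) (G H : Matrix (Fin n) (Fin n) ℤ)
      (γ : unitInterval → Matrix (Fin n) (Fin n) ℝ),
      0 < n → G * H = 1 → Continuous γ → γ 0 = 1 → γ 1 = toR G →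
      (∀ t i j, 0 < ((γ t)⁻¹ * A₀ * γ t) i j) →
      ∃ ε : ℝ, 0 < ε ∧ ∃ T : ℝ, ∀ A B : Matrix (Fin n) (Fin n) ℕ, toZ A * G = G * toZ B →
        (∃ τ : ℝ, T ≤ τ ∧ 0 < τ ∧ ∀ i j, |(A i j : ℝ) - τ * A₀ i j| ≤ ε * τ) → SSE A B := by
  intro n A₀ G H γ hn hGH hγ h0 h1 hpos
  have : Nonempty (Fin n) := ⟨⟨0, hn⟩⟩
  -- the determinants along the path
  have hne : ∀ t, (γ t).det ≠ 0 := by
    intro t h
    obtain ⟨i⟩ := (inferInstance : Nonempty (Fin n))
    have h2 := hpos t i i
    rw [Matrix.nonsing_inv_apply_not_isUnit _ (by rw [h]; exact not_isUnit_zero),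
      Matrix.zero_mul, Matrix.zero_mul] at h2
    exact lt_irrefl _ h2
  have hdet : ∀ t, 0 < (γ t).det := by
    have hS : {t : unitInterval | 0 < (γ t).det} = Set.univ := by
      refine IsClopen.eq_univ ⟨?_, ?_⟩ ⟨0, ?_⟩
      · have : {t : unitInterval | 0 < (γ t).det} = {t : unitInterval | 0 ≤ (γ t).det} := by
          ext t
          constructor
          · intro h
            have h' : 0 < (γ t).det := h
            exact h'.le
          · intro h
            have h' : 0 ≤ (γ t).det := h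
            exact lt_of_le_of_ne h' (hne t).symm
        rw [this]
        exact isClosed_le continuous_const hγ.matrix_det
      · exact isOpen_lt continuous_const hγ.matrix_det
      · show 0 < (γ 0).det
        rw [h0, Matrix.det_one]; exact one_pos
    intro t
    have : t ∈ {t : unitInterval | 0 < (γ t).det} := by rw [hS]; trivial
    exact this
  have hGdet : G.det = 1 := by
    have h2 : G.det * H.det = 1 := by rw [← Matrix.det_mul, hGH, Matrix.det_one]
    have h3 : (0 : ℝ) < (G.det : ℝ) := by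
      have := hdet 1
      rw [h1] at this
      have e : (toR G).det = (G.det : ℝ) := Pool.Agent.H81SSE.cR_det G
      rwa [e] at this
    have h4 : 0 < G.det := by exact_mod_cast h3
    rcases Int.mul_eq_one_iff_eq_one_or_neg_one.mp h2 with ⟨h5, -⟩ | ⟨h5, -⟩
    · exact h5
    · omega
  have hpos' : ∀ t i j, 0 < ((γ t).adjugate * A₀ * γ t) i j := by
    intro t i j
    have h2 := hpos t i j
    rw [Matrix.inv_def, Ring.inverse_eq_inv', Matrix.smul_mul, Matrix.smul_mul,
      Matrix.smul_apply, smul_eq_mul] at h2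
    exact (mul_pos_iff_of_pos_left (inv_pos.mpr (hdet t))).mp h2
  obtain ⟨ε, hε, T, hT⟩ := Pool.Agent.H81SSE.path_main A₀ γ hγ G h0 h1 hdet hpos' hGdet
  refine ⟨ε, hε, T, ?_⟩
  rintro A B hAB ⟨τ, hτ, hτ0, hA⟩
  obtain ⟨-, -, h2⟩ := hT (toZ A) ⟨τ, hτ, hτ0.le, fun i j => by simpa [toZ] using hA i j⟩
  have e : G.adjugate * toZ A * G = toZ B := by
    rw [Matrix.mul_assoc, hAB, ← Matrix.mul_assoc, Matrix.adjugate_mul, hGdet, one_smul,
      Matrix.one_mul]
  rw [e] at h2
  exact Pool.Agent.H81SSE.transGen_of_QQ h2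

end Pool.Agent.Results.MP_993212_an.ConePaths
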