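import Pool.Agent.H81SSE.W.MulFinal

/-!
# MP_993212_an: large multiples of shift equivalent primitive `2 × 2` matrices are strong shift
equivalent

Let `A`, `B` be `2 × 2` matrices over `ℕ` with positive off-diagonal entries and positive trace
(that is, primitive matrices). If `A` and `B` are shift equivalent over `ℤ`, then `k A` and `k B`
are strong shift equivalent over `ℕ` for all large `k`.
-/

set_option autoImplicit false

namespace Pool.Agent.Results.MP_993212_an.MultiplesSE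

open Matrix

/-- Elementary equivalence of square matrices over `ℕ`: `A = R S`, `B = S R` for rectangular
matrices `R`, `S` over `ℕ`. -/
def Elem (X Y : Σ n : ℕ, Matrix (Fin n) (Fin n) ℕ) : Prop :=
  ∃ (R : Matrix (Fin X.1) (Fin Y.1) ℕ) (S : Matrix (Fin Y.1) (Fin X.1) ℕ),
    X.2 = R * S ∧ Y.2 = S * R

/-- Strong shift equivalence over `ℕ` (a finite chain of elementary equivalences). -/
def SSE {n m : ℕ} (A : Matrix (Fin n) (Fin n) ℕ) (B : Matrix (Fin m) (Fin m) ℕ) : Prop :=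
  Relation.TransGen Elem ⟨n, A⟩ ⟨m, B⟩

/-- The matrix `A` viewed over `ℤ`. -/
def toZ {n : ℕ} (A : Matrix (Fin n) (Fin n) ℕ) : Matrix (Fin n) (Fin n) ℤ :=
  A.map (Nat.cast : ℕ → ℤ)

/-- Shift equivalence of square matrices over `ℤ`. -/
def SE {n m : ℕ} (A : Matrix (Fin n) (Fin n) ℤ) (B : Matrix (Fin m) (Fin m) ℤ) : Prop :=
  ∃ l, 1 ≤ l ∧ ∃ (R : Matrix (Fin n) (Fin m) ℤ) (S : Matrix (Fin m) (Fin n) ℤ),
    A ^ l = R * S ∧ B ^ l = S * R ∧ A * R = R * B ∧ S * A = B * S

theorem result : ∀ A B : Matrix (Fin 2) (Fin 2) ℕ, 0 < A 0 1 → 0 < A 1 0 → 0 < A.trace →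
    0 < B 0 1 → 0 < B 1 0 → SE (toZ A) (toZ B) →
    ∃ K₀ : ℕ, ∀ k : ℕ, K₀ ≤ k → SSE (k • A) (k • B) := by
  rintro A B a1 a2 htr b1 b2 ⟨l, hl, R, S, h1, h2, h3, -⟩
  have hAn : Pool.Agent.H81SSE.NN (toZ A) := fun i j => by simp [toZ]
  have hBn : Pool.Agent.H81SSE.NN (toZ B) := fun i j => by simp [toZ]
  obtain ⟨T, hT⟩ := Pool.Agent.H81SSE.MUL2_holds (toZ A) (toZ B) R S l hl hAn hBn
    (by simpa [toZ] using a1) (by simpa [toZ] using a2) (by simpa [toZ] using b1)
    (by simpa [toZ] using b2) (by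
      rw [Matrix.trace_fin_two] at htr ⊢
      simp only [toZ, Matrix.map_apply]
      exact_mod_cast htr) h3 h1.symm h2.symm
  refine ⟨T.toNat, fun k hk => ?_⟩
  have h := hT (k : ℤ) (by
    have := Int.self_le_toNat T
    have h' : ((T.toNat : ℕ) : ℤ) ≤ (k : ℤ) := by exact_mod_cast hk
    exact this.trans h')
  have e : ∀ C : Matrix (Fin 2) (Fin 2) ℕ, (k : ℤ) • toZ C =
      (k • C).map (Nat.cast : ℕ → ℤ) := by
    intro C
    ext i j
    rw [Matrix.smul_apply, Matrix.map_apply, Matrix.smul_apply]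
    simp only [toZ, Matrix.map_apply, smul_eq_mul, Nat.cast_mul]
  rw [e A, e B] at h
  exact Pool.Agent.H81SSE.transGen_of_QQ h

end Pool.Agent.Results.MP_993212_an.MultiplesSE
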