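import Pool.Agent.H81SSE.W.VFinal

/-!
# MP_993212_an: similar `2 × 2` matrices that turn every nonzero integer vector by a large area
are strong shift equivalent

For every `k` there is `K₀` such that two `2 × 2` matrices `A`, `B` over `ℕ` that are similar over
`ℤ` are strong shift equivalent over `ℕ`, if `0 < -det A ≤ k (tr A)²` and `|det (v, A v)| ≥ K₀` for
all nonzero integer vectors `v`.
-/

set_option autoImplicit false

namespace Pool.Agent.Results.MP_993212_an.NoShortVectors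

open Matrix

/-- Elementary equivalence of square matrices over `ℕ`: `A = R S`, `B = S R` for rectangular
matrices `R`, `S` over `ℕ`. -/
def Elem (X Y : Σ n : ℕ, Matrix (Fin n) (Fin n) ℕ) : Prop :=
  ∃ (R : Matrix (Fin X.1) (Fin Y.1) ℕ) (S : Matrix (Fin Y.1) (Fin X.1) ℕ),
    X.2 = R * S ∧ Y.2 = S * R

/-- Strong shift equivalence over `ℕ` (a finite chain of elementary equivalences). -/
def SSE {n m : ℕ} (A : Matrix (Fin n) (Fin n) ℕ) (B : Matrix (Fin m) (Fin m) ℕ) : Prop :=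
  Relation.TransGen Elem ⟨n, A⟩ ⟨m, B⟩

/-- The matrix `A` viewed over `ℤ`. -/
def toZ {n : ℕ} (A : Matrix (Fin n) (Fin n) ℕ) : Matrix (Fin n) (Fin n) ℤ :=
  A.map (Nat.cast : ℕ → ℤ)

theorem result : ∀ k : ℕ, ∃ K₀ : ℕ, ∀ (A B : Matrix (Fin 2) (Fin 2) ℕ)
    (U : Matrix (Fin 2) (Fin 2) ℤ), IsUnit U.det → toZ A * U = U * toZ B →
    (toZ A).det < 0 → -(toZ A).det ≤ k * (toZ A).trace ^ 2 →
    (∀ v : Fin 2 → ℤ, v ≠ 0 →
      (K₀ : ℤ) ≤ |v 0 * (toZ A *ᵥ v) 1 - v 1 * (toZ A *ᵥ v) 0|) →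
    SSE A B := by
  intro k
  obtain ⟨K₀, hK⟩ := Pool.Agent.H81SSE.V.WTH2_holds (k + 1) (by linarith [Int.natCast_nonneg k])
  refine ⟨K₀.toNat, ?_⟩
  intro A B U hU hAB hneg hquad hv
  have hdetB : (toZ B).det = (toZ A).det := by
    have h := congrArg Matrix.det hAB
    rw [Matrix.det_mul, Matrix.det_mul, mul_comm] at h
    exact (mul_left_cancel₀ hU.ne_zero h).symm
  have hnegB : (toZ B).det < 0 := by rw [hdetB]; exact hneg
  have hUdet : U 0 0 * U 1 1 - U 0 1 * U 1 0 = 1 ∨ U 0 0 * U 1 1 - U 0 1 * U 1 0 = -1 := by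
    rw [← Matrix.det_fin_two]
    exact Int.isUnit_iff.mp hU
  have hAn : ∀ i j, 0 ≤ toZ A i j := fun i j => by simp [toZ]
  have hBn : ∀ i j, 0 ≤ toZ B i j := fun i j => by simp [toZ]
  have k00 := congrFun (congrFun hAB 0) 0
  have k01 := congrFun (congrFun hAB 0) 1
  have k10 := congrFun (congrFun hAB 1) 0
  have k11 := congrFun (congrFun hAB 1) 1
  simp only [Matrix.mul_apply, Fin.sum_univ_two] at k00 k01 k10 k11
  rw [Matrix.trace_fin_two] at hquad
  rw [Matrix.det_fin_two] at hneg hquad hnegB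
  have hpos : ∀ M : Matrix (Fin 2) (Fin 2) ℤ, (∀ i j, 0 ≤ M i j) →
      M 0 0 * M 1 1 - M 0 1 * M 1 0 < 0 → 0 < M 0 1 ∧ 0 < M 1 0 := by
    intro M hM hd
    have h1 := mul_nonneg (hM 0 0) (hM 1 1)
    constructor
    · rcases (hM 0 1).lt_or_eq with h | h
      · exact h
      · rw [← h] at hd; linarith
    · rcases (hM 1 0).lt_or_eq with h | h
      · exact h
      · rw [← h] at hd; linarith
  obtain ⟨pA1, pA2⟩ := hpos _ hAn hneg
  obtain ⟨pB1, pB2⟩ := hpos _ hBn hnegB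
  have htr : 0 < toZ A 0 0 + toZ A 1 1 := by
    rcases (add_nonneg (hAn 0 0) (hAn 1 1)).lt_or_eq with h | h
    · exact h
    · rw [← h] at hquad
      nlinarith
  have hAe : toZ A = !![toZ A 0 0, toZ A 0 1; toZ A 1 0, toZ A 1 1] := by
    ext i j; fin_cases i <;> fin_cases j <;> rfl
  have hBe : toZ B = !![toZ B 0 0, toZ B 0 1; toZ B 1 0, toZ B 1 1] := by
    ext i j; fin_cases i <;> fin_cases j <;> rfl
  have key := hK (toZ A 0 0) (toZ A 0 1) (toZ A 1 0) (toZ A 1 1) (toZ B 0 0) (toZ B 0 1)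
    (toZ B 1 0) (toZ B 1 1) (U 0 0) (U 0 1) (U 1 0) (U 1 1) (hAn 0 0) (hAn 1 1) (hBn 0 0) (hBn 1 1) htr pA1 pA2 pB1 pB2
    (by linarith) (by nlinarith [sq_nonneg (toZ A 0 0 + toZ A 1 1)]) (by
      intro x y hxy
      have h1 := hv ![x, y] (by
        intro h
        apply hxy
        have h2 := congrFun h 0
        have h3 := congrFun h 1
        simp at h2 h3
        exact ⟨h2, h3⟩)
      have h4 : ((K₀.toNat : ℕ) : ℤ) ≤ |toZ A 1 0 * x ^ 2 + (toZ A 1 1 - toZ A 0 0) * x * y -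
          toZ A 0 1 * y ^ 2| := by
        refine h1.trans (le_of_eq ?_)
        congr 1
        simp only [Matrix.mulVec, dotProduct, Fin.sum_univ_two, Matrix.cons_val_zero,
          Matrix.cons_val_one]
        ring
      exact (Int.self_le_toNat _).trans h4) hUdet k00 k01 k10 k11
  rw [← hAe, ← hBe] at key
  exact Pool.Agent.H81SSE.transGen_of_QQ key

end Pool.Agent.Results.MP_993212_an.NoShortVectors
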